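import Mathlib
import Pool.Agent.H55.Staged

namespace Pool.Agent.Results.MP_f804be_nt.Exists

open Pool.Agent.H55.Staged

theorem result : ∀ h r : ℕ, 3 ≤ h → 2 ≤ r → ∃ A : Set ℕ, ∀ S : Set ℕ, S ⊆ A →
    ((∃ N : ℕ, ∀ n : ℕ, N ≤ n →
      ∃ f : Fin h → ℕ, (∀ i, f i ∈ A \ S) ∧ ∑ i, f i = n) ↔ S.encard < r) := by
  intro h r hh hr
  obtain ⟨d, rfl⟩ : ∃ d, h = d + 1 := ⟨h - 1, by omega⟩
  classical
  let D : ℕ → Finset ℕ := fun k => (Denumerable.eqv (Finset ℕ)).symm (Nat.unpair k).1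
  let G : ℕ → Finset ℕ := fun k => if (D k).card = r then D k else ∅
  obtain ⟨A, F, nn, h1, h2, h3, h4⟩ := main (d := d) G (by omega)
  refine ⟨A, fun S hS => ⟨?_, fun hlt => ?_⟩⟩
  · rintro ⟨N, hN⟩
    by_contra hge
    obtain ⟨T, hTS, hT⟩ := Set.exists_subset_encard_eq (not_lt.1 hge)
    have hfin : T.Finite := Set.finite_of_encard_eq_coe hT
    obtain ⟨T, rfl⟩ := hfin.exists_finset_coe
    rw [Set.encard_coe_eq_coe_finsetCard, Nat.cast_inj] at hT
    obtain ⟨b, hb⟩ := T.bddAbove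
    set k := Nat.pair (Denumerable.eqv (Finset ℕ) T) (b + N) with hk
    have hkb : b + N ≤ k := Nat.right_le_pair _ _
    have hD : D k = T := by simp [D, hk]
    have hG : G k = T := by simp [G, hD, hT]
    have hF : F k = T := by
      rw [← hG]
      refine h2 k (by rw [hG, ← Finset.card_pos]; omega) fun x hx => ?_
      rw [hG] at hx
      have := hb hx
      exact ⟨hS (hTS hx), by omega⟩
    refine (h1 k).2 ((R_iff.2 (hN (nn k) (by have := (h1 k).1; omega))).mono ?_)
    rw [hF]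
    exact fun x hx => ⟨hx.1, fun e => hx.2 (hTS e)⟩
  · have hfin : S.Finite := Set.finite_of_encard_le_coe hlt.le
    obtain ⟨S, rfl⟩ := hfin.exists_finset_coe
    rw [Set.encard_coe_eq_coe_finsetCard, Nat.cast_lt] at hlt
    obtain ⟨b, hb⟩ := S.bddAbove
    obtain ⟨m0, hm0⟩ := h4 (b + 1)
    have hsub : {x | x ∈ A ∧ b + 1 ≤ x} ⊆ A \ S :=
      fun x hx => ⟨hx.1, fun hxS => by have := hb hxS; have := hx.2; omega⟩
    refine ⟨m0, fun n hn => R_iff.1 ?_⟩
    rcases hm0 n hn with h | ⟨k, hk, h⟩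
    · exact h.mono hsub
    · obtain ⟨z, hzF, hz⟩ : ∃ z ∈ F k, z ∉ S := by
        rcases (h3 k).2.2 with e | ⟨z, hz, e⟩
        · have hc : (F k).card = r := by
            have hne := (h3 k).1
            rw [e] at hne ⊢
            simp only [G] at hne ⊢
            split_ifs at hne ⊢ with hc
            · exact hc
            · simp at hne
          exact Finset.exists_mem_notMem_of_card_lt_card (by omega)
        · exact ⟨z, by simp [e], fun hxS => by have := hb hxS; omega⟩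
      obtain ⟨h5, h6⟩ := h z hzF
      exact (h6.mono hsub).cons (x := z) ⟨(h3 k).2.1 hzF, hz⟩ (by omega)

end Pool.Agent.Results.MP_f804be_nt.Exists
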